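import Pool.Agent.H48Sid.Final

/-!
# Q2: every admissible exponent is larger than `3/4`

`SidonSet S`, `Rep S m L`, `Admissible θ` are defined in `Pool/Agent/H48Sid/Basic.lean`.
-/

set_option autoImplicit false

namespace Pool.Agent.Results.MP_9568c3_nt.ThreeQuarters

open Pool.Agent.H48Sid

/-- For every Sidon set `S` there are infinitely many `m` that are not sums of three elements of
`S`, each at distance at most `(m log m)^(3/4) / 1000` from `m/3`. In particular every admissible
exponent `θ` satisfies `θ > 3/4`. -/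
theorem result :
    (∀ S : Set ℕ, SidonSet S → ∀ M : ℕ, ∃ m : ℕ, M ≤ m ∧
      ¬ Rep S m (((m : ℝ) * Real.log m) ^ (3 / 4 : ℝ) / 1000)) ∧
    (∀ θ : ℝ, Admissible θ → 3 / 4 < θ) :=
  ⟨fun S hS M => not_rep S hS M, three_quarters_lt⟩

end Pool.Agent.Results.MP_9568c3_nt.ThreeQuarters
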